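import Mathlib

set_option autoImplicit false

/-!
# A spectrally arbitrary sign pattern with a superpattern that is not potentially nilpotent

`P = M₄ ⊕ T₂` is spectrally arbitrary.  Changing the zero entry `(1, 4)` of `P` into `+` gives a
superpattern `Q` no realization of which is nilpotent, so `Q` is not spectrally arbitrary.
-/

namespace Pool.Agent.Results.MP_557f7f_co.SpectralSuperpattern

open Polynomial Matrix

/-- `A` is a realization of the sign pattern `S`. -/
def Realizes {n : ℕ} (A : Matrix (Fin n) (Fin n) ℝ) (S : Matrix (Fin n) (Fin n) SignType) : Prop :=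
  ∀ i j, SignType.sign (A i j) = S i j

/-- The sign pattern `S` is spectrally arbitrary: every monic real polynomial of degree `n` is the
characteristic polynomial of a realization of `S`. -/
def SpectrallyArbitrary {n : ℕ} (S : Matrix (Fin n) (Fin n) SignType) : Prop :=
  ∀ p : ℝ[X], p.Monic → p.natDegree = n →
    ∃ A : Matrix (Fin n) (Fin n) ℝ, Realizes A S ∧ A.charpoly = p

/-- `S'` is a superpattern of `S`: it agrees with `S` at every nonzero entry of `S`. -/
def IsSuperpattern {n : ℕ} (S' S : Matrix (Fin n) (Fin n) SignType) : Prop :=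
  ∀ i j, S i j ≠ 0 → S' i j = S i j

/-- The pattern `M₄`. -/
def M4 : Matrix (Fin 4) (Fin 4) SignType :=
  !![1, 1, -1, 0; -1, -1, 1, 0; 0, 0, 0, -1; 1, 1, 0, 0]

/-- The pattern `M₄` with a plus sign at `(1, 4)`. -/
def M4' : Matrix (Fin 4) (Fin 4) SignType :=
  !![1, 1, -1, 1; -1, -1, 1, 0; 0, 0, 0, -1; 1, 1, 0, 0]

/-- The pattern `T₂`. -/
def T2 : Matrix (Fin 2) (Fin 2) SignType := !![1, 1; -1, -1]

/-- The pattern `M₄ ⊕ T₂`. -/
def P : Matrix (Fin 6) (Fin 6) SignType :=
  !![1, 1, -1, 0, 0, 0;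
     -1, -1, 1, 0, 0, 0;
     0, 0, 0, -1, 0, 0;
     1, 1, 0, 0, 0, 0;
     0, 0, 0, 0, 1, 1;
     0, 0, 0, 0, -1, -1]

/-- The pattern `M₄ ⊕ T₂` with a plus sign at `(1, 4)`. -/
def Q : Matrix (Fin 6) (Fin 6) SignType :=
  !![1, 1, -1, 1, 0, 0;
     -1, -1, 1, 0, 0, 0;
     0, 0, 0, -1, 0, 0;
     1, 1, 0, 0, 0, 0;
     0, 0, 0, 0, 1, 1;
     0, 0, 0, 0, -1, -1]

/-- The characteristic polynomial of the matrices with pattern `M₄` or `M₄'`. -/
lemma charpoly4 (a b c d e f g h k y : ℝ) :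
    (!![a, b, -c, y; -d, -e, f, 0; 0, 0, 0, -g; h, k, 0, 0] :
      Matrix (Fin 4) (Fin 4) ℝ).charpoly =
    X ^ 4 + C (e - a) * X ^ 3 + C (b * d - a * e - y * h) * X ^ 2 +
      C (-(g * (c * h - f * k) + y * (e * h - d * k))) * X +
      C (g * (b * f * h + c * d * k - a * f * k - c * e * h)) := by
  rw [Matrix.charpoly, Matrix.det_succ_row_zero]
  simp [Fin.sum_univ_succ, Matrix.charmatrix_apply, Matrix.det_fin_three, Fin.succAbove,
    Matrix.diagonal, Matrix.of_apply]
  ring

/-- Every quadratic is attained by `T₂`. -/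
lemma attain2 (s t : ℝ) : ∃ B : Matrix (Fin 2) (Fin 2) ℝ, Realizes B T2 ∧
    B.charpoly = X ^ 2 + C s * X + C t := by
  set q : ℝ := |s| + |t| + 1 with hq
  have n1 := abs_nonneg s
  have n2 := abs_nonneg t
  have l1 := neg_abs_le s
  have l2 := neg_abs_le t
  have hq0 : 0 < q := by rw [hq]; linarith
  have hqs : 1 + |t| ≤ q + s := by rw [hq]; linarith
  have hr : 0 < t + q * (q + s) := by nlinarith
  refine ⟨!![q, 1; -(t + q * (q + s)), -(q + s)], ?_, ?_⟩
  · intro i j
    fin_cases i <;> fin_cases j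
    · exact sign_pos hq0
    · exact sign_pos one_pos
    · exact sign_neg (neg_neg_of_pos hr)
    · exact sign_neg (neg_neg_of_pos (by linarith))
  · rw [Matrix.charpoly_fin_two, Matrix.trace_fin_two, Matrix.det_fin_two]
    have e1 : q + -(q + s) = -s := by ring
    have e2 : q * -(q + s) - 1 * -(t + q * (q + s)) = t := by ring
    simp only [Matrix.of_apply, Matrix.cons_val', Matrix.cons_val_zero, Matrix.cons_val_one,
      Matrix.cons_val_fin_one]
    rw [e1, e2, C_neg]
    ring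

/-- The core construction for `M₄`. -/
lemma attain4_core (m3 m2 m1 m0 a e u v : ℝ) (ha : 0 < a) (he : 0 < e) (hu : 0 < u) (hv : 0 < v)
    (h3 : e - a = m3) (h1 : u - v = -m1) (hP : 0 < m2 + a * e) (hR : 0 < m0 + a * v + u * e)
    (hD : 4 * (u * v) * (m2 + a * e) ≤ (m0 + a * v + u * e) ^ 2) :
    ∃ A : Matrix (Fin 4) (Fin 4) ℝ, Realizes A M4 ∧
      A.charpoly = X ^ 4 + C m3 * X ^ 3 + C m2 * X ^ 2 + C m1 * X + C m0 := by
  set P : ℝ := m2 + a * e with hPdef
  set R : ℝ := m0 + a * v + u * e with hRdef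
  set S : ℝ := Real.sqrt (R ^ 2 - 4 * (u * v) * P) with hS
  have hS0 : 0 ≤ S := Real.sqrt_nonneg _
  have hS2 : S ^ 2 = R ^ 2 - 4 * (u * v) * P := Real.sq_sqrt (by linarith)
  set B : ℝ := (R + S) / (2 * v) with hB
  have hB0 : 0 < B := div_pos (by linarith) (by linarith)
  have hBv : 2 * v * B = R + S := by rw [hB]; field_simp
  have hquad : v * B ^ 2 - R * B + u * P = 0 := by
    have h : 4 * v * (v * B ^ 2 - R * B + u * P) = 0 := by
      have : 4 * v * (v * B ^ 2 - R * B + u * P) =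
        (2 * v * B) ^ 2 - 2 * R * (2 * v * B) + 4 * (u * v) * P := by ring
      rw [this, hBv]
      nlinarith [hS2]
    rcases mul_eq_zero.mp h with h' | h'
    · exact absurd h' (by positivity)
    · exact h'
  have hDpos : 0 < P / B := div_pos hP hB0
  have hBD : B * (P / B) = P := by field_simp
  have hsum : v * B + u * (P / B) = R := by
    have : B * (v * B + u * (P / B)) = B * R := by
      have : B * (v * B + u * (P / B)) = v * B ^ 2 + u * (B * (P / B)) := by ring
      rw [this, hBD]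
      linarith
    exact mul_left_cancel₀ hB0.ne' this
  refine ⟨!![a, B, -u, 0; -(P / B), -e, v, 0; 0, 0, 0, -1; 1, 1, 0, 0], ?_, ?_⟩
  · intro i j
    fin_cases i <;> fin_cases j
    · exact sign_pos ha
    · exact sign_pos hB0
    · exact sign_neg (neg_neg_of_pos hu)
    · exact sign_zero
    · exact sign_neg (neg_neg_of_pos hDpos)
    · exact sign_neg (neg_neg_of_pos he)
    · exact sign_pos hv
    · exact sign_zero
    · exact sign_zero
    · exact sign_zero
    · exact sign_zero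
    · exact sign_neg (neg_neg_of_pos one_pos)
    · exact sign_pos one_pos
    · exact sign_pos one_pos
    · exact sign_zero
    · exact sign_zero
  · rw [charpoly4]
    have e3 : e - a = m3 := h3
    have e2 : B * (P / B) - a * e - 0 * 1 = m2 := by rw [hBD, hPdef]; ring
    have e1 : -(1 * (u * 1 - v * 1) + 0 * (e * 1 - P / B * 1)) = m1 := by linarith
    have e0 : 1 * (B * v * 1 + u * (P / B) * 1 - a * v * 1 - u * e * 1) = m0 := by
      have : B * v + u * (P / B) = m0 + a * v + u * e := by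
        rw [← hRdef, ← hsum]; ring
      linarith
    rw [e3, e2, e1, e0]

/-- A quadratic polynomial with positive leading coefficient is nonnegative from some point on. -/
lemma quad_large (A B C : ℝ) (hA : 0 < A) : ∃ x0 : ℝ, 0 < x0 ∧ ∀ x, x0 ≤ x →
    0 ≤ A * x ^ 2 + B * x + C := by
  refine ⟨(|B| + |C|) / A + 1, by positivity, fun x hx => ?_⟩
  have h0 : 0 ≤ (|B| + |C|) / A := by positivity
  have h1 : 1 ≤ x := by linarith
  have h2 : |B| + |C| ≤ A * (x - 1) := by
    have : (|B| + |C|) / A ≤ x - 1 := by linarith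
    rw [div_le_iff₀ hA] at this
    linarith
  have h3 := neg_abs_le B
  have h4 := neg_abs_le C
  have h5 := abs_nonneg B
  have h6 := abs_nonneg C
  have h7 : (|B| + |C|) * x ≤ A * x * x := by nlinarith
  have h8 : |C| ≤ |C| * x := by nlinarith
  nlinarith

/-- The quartics attained by `M₄`. -/
lemma attain4 (m3 m2 m1 m0 : ℝ)
    (h : m1 ≠ 0 ∨ 0 < m0 ∨ (m0 = 0 ∧ 4 * m2 ≤ m3 ^ 2) ∨ 4 * m2 < m3 ^ 2) :
    ∃ A : Matrix (Fin 4) (Fin 4) ℝ, Realizes A M4 ∧
      A.charpoly = X ^ 4 + C m3 * X ^ 3 + C m2 * X ^ 2 + C m1 * X + C m0 := by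
  by_cases hm1 : m1 = 0
  · -- the case `m1 = 0`
    set e : ℝ := |m3| + |m2| + 1 with he
    have n2 := abs_nonneg m2
    have n3 := abs_nonneg m3
    have l3 := le_abs_self m3
    have l2 := neg_abs_le m2
    have he1 : 1 ≤ e := by rw [he]; linarith
    have ha1 : 1 + |m2| ≤ e - m3 := by rw [he]; linarith
    have hP : 0 < m2 + (e - m3) * e := by nlinarith
    set P : ℝ := m2 + (e - m3) * e with hPdef
    have hap : 0 < e - m3 := by linarith
    have hep : 0 < e := by linarith
    by_cases h0 : 0 < m0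
    · -- `u = v` small
      set v : ℝ := m0 / (2 * (P + 1)) with hv
      have hv0 : 0 < v := by positivity
      have hvm : 2 * (P + 1) * v = m0 := by rw [hv]; field_simp
      have hR : 0 < m0 + (e - m3) * v + v * e := by positivity
      refine attain4_core m3 m2 m1 m0 (e - m3) e v v hap hep hv0 hv0 (by ring)
        (by rw [hm1]; ring) hP hR ?_
      have h1 : m0 ^ 2 ≤ (m0 + (e - m3) * v + v * e) ^ 2 := by
        apply pow_le_pow_left₀ h0.le
        have : 0 ≤ (e - m3) * v := by positivity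
        have : 0 ≤ v * e := by positivity
        linarith
      refine le_trans ?_ h1
      rw [← hvm, ← hPdef]
      have h2 : (2 * (P + 1) * v) ^ 2 - 4 * (v * v) * P = 4 * v ^ 2 * (P ^ 2 + P + 1) := by ring
      have h3 : 0 ≤ 4 * v ^ 2 * (P ^ 2 + P + 1) := by positivity
      linarith
    · by_cases h4 : 4 * m2 < m3 ^ 2
      · -- `u = v` large
        obtain ⟨x0, hx0, hx⟩ := quad_large (m3 ^ 2 - 4 * m2) (2 * m0 * (2 * e - m3)) (m0 ^ 2)
          (by linarith)
        set v : ℝ := max x0 ((|m0| + 1) / e) with hv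
        have hv1 : x0 ≤ v := le_max_left _ _
        have hv2 : (|m0| + 1) / e ≤ v := le_max_right _ _
        have hv0 : 0 < v := by linarith
        have hve : |m0| + 1 ≤ v * e := by rwa [div_le_iff₀ hep] at hv2
        have hR : 0 < m0 + (e - m3) * v + v * e := by
          have := neg_abs_le m0
          have : 0 < (e - m3) * v := by positivity
          linarith
        refine attain4_core m3 m2 m1 m0 (e - m3) e v v hap hep hv0 hv0 (by ring)
          (by rw [hm1]; ring) hP hR ?_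
        have := hx v hv1
        rw [← sub_nonneg]
        refine le_of_le_of_eq this ?_
        ring
      · -- `m0 = 0` and `m3 ^ 2 = 4 m2`
        have h5 : m0 = 0 ∧ 4 * m2 ≤ m3 ^ 2 := by
          rcases h with h | h | h | h
          · exact absurd hm1 h
          · exact absurd h h0
          · exact h
          · exact absurd h h4
        have hR : 0 < m0 + (e - m3) * 1 + 1 * e := by rw [h5.1]; linarith
        refine attain4_core m3 m2 m1 m0 (e - m3) e 1 1 hap hep one_pos one_pos (by ring)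
          (by rw [hm1]; ring) hP hR ?_
        rw [h5.1, ← hPdef, hPdef]
        nlinarith [h5.2]
  · -- the case `m1 ≠ 0`
    set v : ℝ := |m1| + 1 with hv
    have l1 := le_abs_self m1
    have n1 := abs_nonneg m1
    have hv0 : 0 < v := by rw [hv]; linarith
    have hu0 : 0 < v - m1 := by rw [hv]; linarith
    have hm1' : 0 < m1 ^ 2 := by positivity
    obtain ⟨x0, hx0, hx⟩ := quad_large (m1 ^ 2)
      (2 * (2 * v - m1) * (m0 - m3 * v) + 4 * ((v - m1) * v) * m3)
      ((m0 - m3 * v) ^ 2 - 4 * ((v - m1) * v) * m2) hm1'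
    set e : ℝ := max x0 (max (|m3| + |m2| + 1) ((|m0| + |m3| * v + 1) / (v - m1))) with he
    have he1 : x0 ≤ e := le_max_left _ _
    have he2 : |m3| + |m2| + 1 ≤ e := le_trans (le_max_left _ _) (le_max_right _ _)
    have he3 : (|m0| + |m3| * v + 1) / (v - m1) ≤ e :=
      le_trans (le_max_right _ _) (le_max_right _ _)
    have he3' : |m0| + |m3| * v + 1 ≤ e * (v - m1) := by rwa [div_le_iff₀ hu0] at he3
    have n2 := abs_nonneg m2
    have n3 := abs_nonneg m3
    have l3 := le_abs_self m3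
    have l2 := neg_abs_le m2
    have l0 := neg_abs_le m0
    have he1' : 1 ≤ e := by linarith
    have ha1 : 1 + |m2| ≤ e - m3 := by linarith
    have hP : 0 < m2 + (e - m3) * e := by nlinarith
    have hap : 0 < e - m3 := by linarith
    have hep : 0 < e := by linarith
    have hR : 0 < m0 + (e - m3) * v + (v - m1) * e := by
      have : 0 < (e - m3) * v := by positivity
      have : 0 ≤ |m3| * v := by positivity
      nlinarith
    refine attain4_core m3 m2 m1 m0 (e - m3) e (v - m1) v hap hep hu0 hv0 (by ring)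
      (by ring) hP hR ?_
    have := hx e he1
    rw [← sub_nonneg]
    refine le_of_le_of_eq this ?_
    ring

/-! ### Factoring real polynomials into quadratics -/

/-- A monic real polynomial of degree at least two has a monic quadratic factor. -/
lemma exists_quad_dvd (p : ℝ[X]) (hp : p.Monic) (hd : 2 ≤ p.natDegree) :
    ∃ s t : ℝ, (X ^ 2 + C s * X + C t) ∣ p := by
  by_cases hz : ∃ z : ℂ, aeval z p = 0 ∧ z.im ≠ 0
  · obtain ⟨z, h0, h1⟩ := hz
    refine ⟨-(2 * z.re), ‖z‖ ^ 2, ?_⟩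
    have := Polynomial.quadratic_dvd_of_aeval_eq_zero_im_ne_zero p h0 h1
    convert this using 1
    simp only [C_neg]
    ring
  · push Not at hz
    -- every complex root is real
    have root : ∀ f : ℝ[X], f ∣ p → 0 < f.natDegree → ∃ r : ℝ, f.IsRoot r := by
      intro f hf hdf
      have hdeg : (f.map (algebraMap ℝ ℂ)).degree ≠ 0 := by
        rw [Polynomial.degree_map]
        intro h
        rw [Polynomial.natDegree_eq_of_degree_eq_some h] at hdf
        exact lt_irrefl _ hdf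
      obtain ⟨z, hz1⟩ := Complex.exists_root (f := f.map (algebraMap ℝ ℂ))
        (by
          rw [Polynomial.degree_map]
          exact Polynomial.natDegree_pos_iff_degree_pos.mp hdf)
      have hz2 : aeval z f = 0 := by
        rw [Polynomial.aeval_def, ← Polynomial.eval_map]
        exact hz1
      have hz3 : aeval z p = 0 := by
        obtain ⟨g, rfl⟩ := hf
        rw [map_mul, hz2, zero_mul]
      have him := hz z hz3
      refine ⟨z.re, ?_⟩
      have hzr : z = ((z.re : ℝ) : ℂ) := by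
        apply Complex.ext <;> simp [him]
      rw [hzr] at hz2
      have h5 : aeval (algebraMap ℝ ℂ z.re) f = 0 := hz2
      rw [Polynomial.aeval_algebraMap_apply] at h5
      have h6 : (algebraMap ℝ ℂ) (eval z.re f) = 0 := by simpa using h5
      have h7 : eval z.re f = 0 := by
        simpa using h6
      exact h7
    obtain ⟨r, hr⟩ := root p dvd_rfl (by omega)
    obtain ⟨f, hf⟩ := Polynomial.dvd_iff_isRoot.mpr hr
    have hfm : f.Monic := (Polynomial.monic_X_sub_C r).of_mul_monic_left (hf ▸ hp)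
    have hfd : 0 < f.natDegree := by
      have := congrArg Polynomial.natDegree hf
      rw [(Polynomial.monic_X_sub_C r).natDegree_mul hfm, natDegree_X_sub_C] at this
      omega
    obtain ⟨r', hr'⟩ := root f (Dvd.intro_left _ hf.symm) hfd
    obtain ⟨g, hg⟩ := Polynomial.dvd_iff_isRoot.mpr hr'
    refine ⟨-(r + r'), r * r', g, ?_⟩
    rw [hf, hg]
    simp only [C_neg, C_add, C_mul]
    ring

lemma monic_quad (s t : ℝ) : (X ^ 2 + C s * X + C t : ℝ[X]).Monic := by
  monicity!

lemma natDegree_quad (s t : ℝ) : (X ^ 2 + C s * X + C t : ℝ[X]).natDegree = 2 := by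
  compute_degree!

/-- A monic real polynomial of degree six is a product of three monic quadratics. -/
lemma factor6 (p : ℝ[X]) (hp : p.Monic) (hd : p.natDegree = 6) :
    ∃ s1 t1 s2 t2 s3 t3 : ℝ, p = (X ^ 2 + C s1 * X + C t1) * (X ^ 2 + C s2 * X + C t2) *
      (X ^ 2 + C s3 * X + C t3) := by
  obtain ⟨s1, t1, f, hf⟩ := exists_quad_dvd p hp (by omega)
  have hfm : f.Monic := (monic_quad s1 t1).of_mul_monic_left (hf ▸ hp)
  have hfd : f.natDegree = 4 := by
    have := congrArg Polynomial.natDegree hf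
    rw [(monic_quad s1 t1).natDegree_mul hfm, natDegree_quad] at this
    omega
  obtain ⟨s2, t2, g, hg⟩ := exists_quad_dvd f hfm (by omega)
  have hgm : g.Monic := (monic_quad s2 t2).of_mul_monic_left (hg ▸ hfm)
  have hgd : g.natDegree = 2 := by
    have := congrArg Polynomial.natDegree hg
    rw [(monic_quad s2 t2).natDegree_mul hgm, natDegree_quad] at this
    omega
  obtain ⟨s3, t3, k, hk⟩ := exists_quad_dvd g hgm (by omega)
  have hkm : k.Monic := (monic_quad s3 t3).of_mul_monic_left (hk ▸ hgm)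
  have hkd : k.natDegree = 0 := by
    have := congrArg Polynomial.natDegree hk
    rw [(monic_quad s3 t3).natDegree_mul hkm, natDegree_quad] at this
    omega
  have hk1 : k = 1 := hkm.natDegree_eq_zero.mp hkd
  refine ⟨s1, t1, s2, t2, s3, t3, ?_⟩
  rw [hf, hg, hk, hk1, mul_one, mul_assoc]

/-- Direct sums of realizations. -/
lemma direct_sum (A : Matrix (Fin 4) (Fin 4) ℝ) (B : Matrix (Fin 2) (Fin 2) ℝ)
    (hA : Realizes A M4) (hB : Realizes B T2) :
    ∃ N : Matrix (Fin 6) (Fin 6) ℝ, Realizes N P ∧ N.charpoly = A.charpoly * B.charpoly := by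
  let e : Fin 4 ⊕ Fin 2 ≃ Fin 6 := finSumFinEquiv
  refine ⟨Matrix.reindex e e (Matrix.fromBlocks A 0 0 B), ?_, ?_⟩
  · intro i j
    obtain ⟨i, rfl⟩ := e.surjective i
    obtain ⟨j, rfl⟩ := e.surjective j
    rw [Matrix.reindex_apply, Matrix.submatrix_apply, Equiv.symm_apply_apply,
      Equiv.symm_apply_apply]
    rcases i with i | i <;> rcases j with j | j
    · rw [Matrix.fromBlocks_apply₁₁, hA i j]
      fin_cases i <;> fin_cases j <;> rfl
    · rw [Matrix.fromBlocks_apply₁₂, Matrix.zero_apply, sign_zero]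
      fin_cases i <;> fin_cases j <;> rfl
    · rw [Matrix.fromBlocks_apply₂₁, Matrix.zero_apply, sign_zero]
      fin_cases i <;> fin_cases j <;> rfl
    · rw [Matrix.fromBlocks_apply₂₂, hB i j]
      fin_cases i <;> fin_cases j <;> rfl
  · rw [Matrix.charpoly_reindex, Matrix.charpoly_fromBlocks_zero₁₂]

/-- The two factors of a pair of quadratics can be given to `M₄` unless an inequality fails. -/
lemma pair_ok (s1 t1 s2 t2 : ℝ) (h : 0 < t1 * t2 ∨ (t1 * t2 = 0 ∧ 4 * (t1 + t2) ≤ (s1 - s2) ^ 2) ∨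
    4 * (t1 + t2) < (s1 - s2) ^ 2) :
    ∃ A : Matrix (Fin 4) (Fin 4) ℝ, Realizes A M4 ∧
      A.charpoly = (X ^ 2 + C s1 * X + C t1) * (X ^ 2 + C s2 * X + C t2) := by
  obtain ⟨A, h1, h2⟩ := attain4 (s1 + s2) (t1 + t2 + s1 * s2) (s1 * t2 + s2 * t1) (t1 * t2) (by
    rcases h with h | h | h
    · exact Or.inr (Or.inl h)
    · exact Or.inr (Or.inr (Or.inl ⟨h.1, by nlinarith [h.2]⟩))
    · exact Or.inr (Or.inr (Or.inr (by nlinarith))))
  refine ⟨A, h1, ?_⟩
  rw [h2]
  simp only [C_add, C_mul]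
  ring

theorem P_arbitrary : SpectrallyArbitrary P := by
  intro p hp hd
  obtain ⟨s1, t1, s2, t2, s3, t3, h⟩ := factor6 p hp hd
  have fin : ∀ s1 t1 s2 t2 s3 t3 : ℝ,
      (0 < t1 * t2 ∨ (t1 * t2 = 0 ∧ 4 * (t1 + t2) ≤ (s1 - s2) ^ 2) ∨
        4 * (t1 + t2) < (s1 - s2) ^ 2) →
      ∃ N : Matrix (Fin 6) (Fin 6) ℝ, Realizes N P ∧ N.charpoly =
        (X ^ 2 + C s1 * X + C t1) * (X ^ 2 + C s2 * X + C t2) * (X ^ 2 + C s3 * X + C t3) := by
    intro s1 t1 s2 t2 s3 t3 hok
    obtain ⟨A, hA1, hA2⟩ := pair_ok s1 t1 s2 t2 hok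
    obtain ⟨B, hB1, hB2⟩ := attain2 s3 t3
    obtain ⟨N, hN1, hN2⟩ := direct_sum A B hA1 hB1
    exact ⟨N, hN1, by rw [hN2, hA2, hB2]⟩
  by_cases h12 : (0 < t1 * t2 ∨ (t1 * t2 = 0 ∧ 4 * (t1 + t2) ≤ (s1 - s2) ^ 2) ∨
        4 * (t1 + t2) < (s1 - s2) ^ 2)
  · rw [h]
    exact fin s1 t1 s2 t2 s3 t3 h12
  by_cases h13 : (0 < t1 * t3 ∨ (t1 * t3 = 0 ∧ 4 * (t1 + t3) ≤ (s1 - s3) ^ 2) ∨
        4 * (t1 + t3) < (s1 - s3) ^ 2)
  · rw [h, mul_assoc, mul_comm (X ^ 2 + C s2 * X + C t2), ← mul_assoc]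
    exact fin s1 t1 s3 t3 s2 t2 h13
  by_cases h23 : (0 < t2 * t3 ∨ (t2 * t3 = 0 ∧ 4 * (t2 + t3) ≤ (s2 - s3) ^ 2) ∨
        4 * (t2 + t3) < (s2 - s3) ^ 2)
  · rw [h, mul_assoc, mul_comm (X ^ 2 + C s1 * X + C t1)]
    exact fin s2 t2 s3 t3 s1 t1 h23
  exfalso
  push Not at h12 h13 h23
  obtain ⟨a1, a2, a3⟩ := h12
  obtain ⟨b1, b2, b3⟩ := h13
  obtain ⟨c1, c2, c3⟩ := h23
  have p12 : 0 ≤ t1 + t2 := by nlinarith [sq_nonneg (s1 - s2)]
  have p13 : 0 ≤ t1 + t3 := by nlinarith [sq_nonneg (s1 - s3)]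
  have p23 : 0 ≤ t2 + t3 := by nlinarith [sq_nonneg (s2 - s3)]
  have n1 : 0 ≤ t1 := by
    by_contra hneg
    push Not at hneg
    nlinarith [mul_pos (show 0 < t2 by linarith) (show 0 < t3 by linarith)]
  have n2 : 0 ≤ t2 := by
    by_contra hneg
    push Not at hneg
    nlinarith [mul_pos (show 0 < t1 by linarith) (show 0 < t3 by linarith)]
  have n3 : 0 ≤ t3 := by
    by_contra hneg
    push Not at hneg
    nlinarith [mul_pos (show 0 < t1 by linarith) (show 0 < t2 by linarith)]
  have z12 : t1 * t2 = 0 := le_antisymm a1 (mul_nonneg n1 n2)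
  have z13 : t1 * t3 = 0 := le_antisymm b1 (mul_nonneg n1 n3)
  have z23 : t2 * t3 = 0 := le_antisymm c1 (mul_nonneg n2 n3)
  have q12 := a2 z12
  have q13 := b2 z13
  have q23 := c2 z23
  rcases mul_eq_zero.mp z12 with h1 | h1
  · rcases mul_eq_zero.mp z23 with h2 | h2
    · nlinarith [sq_nonneg (s1 - s2)]
    · nlinarith [sq_nonneg (s1 - s3)]
  · rcases mul_eq_zero.mp z13 with h2 | h2
    · nlinarith [sq_nonneg (s1 - s2)]
    · nlinarith [sq_nonneg (s2 - s3)]

/-! ### The superpattern has no nilpotent realization -/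

lemma coeffs_zero (a3 a2 a1 a0 : ℝ)
    (h : (X ^ 4 + C a3 * X ^ 3 + C a2 * X ^ 2 + C a1 * X + C a0 : ℝ[X]) = X ^ 4) :
    a3 = 0 ∧ a2 = 0 ∧ a1 = 0 ∧ a0 = 0 := by
  refine ⟨?_, ?_, ?_, ?_⟩
  · have := congrArg (fun q => Polynomial.coeff q 3) h
    simpa [coeff_X, coeff_X_pow, coeff_C] using this
  · have := congrArg (fun q => Polynomial.coeff q 2) h
    simpa [coeff_X, coeff_X_pow, coeff_C] using this
  · have := congrArg (fun q => Polynomial.coeff q 1) h
    simpa [coeff_X, coeff_X_pow, coeff_C] using this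
  · have := congrArg (fun q => Polynomial.coeff q 0) h
    simpa [coeff_X, coeff_X_pow, coeff_C] using this

/-- The characteristic polynomial of a matrix with pattern `M₄'` is not `X ^ 4`. -/
lemma charpoly4_ne (a b c d e f g h k y : ℝ) (ha : 0 < a) (hc : 0 < c) (hf : 0 < f)
    (hg : 0 < g) (hh : 0 < h) (hk : 0 < k) (hy : 0 < y) :
    (!![a, b, -c, y; -d, -e, f, 0; 0, 0, 0, -g; h, k, 0, 0] :
      Matrix (Fin 4) (Fin 4) ℝ).charpoly ≠ X ^ 4 := by
  intro hX
  rw [charpoly4] at hX
  obtain ⟨c3, c2, c1, c0⟩ := coeffs_zero _ _ _ _ hX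
  have he : e = a := by linarith
  subst he
  have c0' : b * f * h + c * d * k - e * f * k - c * e * h = 0 := by
    rcases mul_eq_zero.mp c0 with h' | h'
    · exact absurd h' hg.ne'
    · exact h'
  have key : g * (f * y * h ^ 2 * k) + (g * c + e * y) * (d * k - e * h) ^ 2 = 0 := by
    linear_combination (-(g * f * h * k)) * c2 + (e * (d * k - e * h)) * c1 +
      (g * (d * k)) * c0'
  have p1 : 0 < g * (f * y * h ^ 2 * k) := by positivity
  have p2 : 0 ≤ (g * c + e * y) * (d * k - e * h) ^ 2 := by positivity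
  linarith

theorem Q_not_nilpotent (A : Matrix (Fin 6) (Fin 6) ℝ) (hA : Realizes A Q) : ¬ IsNilpotent A := by
  intro hnil
  have hX : A.charpoly = X ^ 6 := by
    have h1 := Matrix.isNilpotent_charpoly_sub_pow_of_isNilpotent hnil
    have h2 := h1.eq_zero
    simpa [sub_eq_zero] using h2
  let e : Fin 4 ⊕ Fin 2 ≃ Fin 6 := finSumFinEquiv
  set N : Matrix (Fin 4 ⊕ Fin 2) (Fin 4 ⊕ Fin 2) ℝ := Matrix.reindex e.symm e.symm A with hN
  have hNX : N.charpoly = X ^ 6 := by rw [hN, Matrix.charpoly_reindex, hX]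
  have h12 : N.toBlocks₁₂ = 0 := by
    ext i j
    have := hA (e (Sum.inl i)) (e (Sum.inr j))
    have h0 : Q (e (Sum.inl i)) (e (Sum.inr j)) = 0 := by
      fin_cases i <;> fin_cases j <;> rfl
    rw [h0, sign_eq_zero_iff] at this
    exact this
  have hfb : N = Matrix.fromBlocks N.toBlocks₁₁ 0 N.toBlocks₂₁ N.toBlocks₂₂ := by
    rw [← h12]
    exact (Matrix.fromBlocks_toBlocks N).symm
  rw [hfb, Matrix.charpoly_fromBlocks_zero₁₂] at hNX
  have hdvd : N.toBlocks₁₁.charpoly ∣ X ^ 6 := ⟨_, hNX.symm⟩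
  have h4 : N.toBlocks₁₁.charpoly = X ^ 4 := by
    obtain ⟨i, -, hi⟩ := (dvd_prime_pow Polynomial.prime_X 6).mp hdvd
    have h5 := Polynomial.eq_of_monic_of_associated (Matrix.charpoly_monic _)
      (Polynomial.monic_X_pow i) hi
    have h6 := Matrix.charpoly_natDegree_eq_dim N.toBlocks₁₁
    rw [h5, natDegree_X_pow, Fintype.card_fin] at h6
    rw [h5, h6]
  have hpos : ∀ i j : Fin 4, M4' i j = 1 → 0 < N.toBlocks₁₁ i j := by
    intro i j hij
    have := hA (e (Sum.inl i)) (e (Sum.inl j))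
    have h0 : Q (e (Sum.inl i)) (e (Sum.inl j)) = M4' i j := by
      fin_cases i <;> fin_cases j <;> rfl
    rw [h0, hij, sign_eq_one_iff] at this
    exact this
  have hneg : ∀ i j : Fin 4, M4' i j = -1 → N.toBlocks₁₁ i j < 0 := by
    intro i j hij
    have := hA (e (Sum.inl i)) (e (Sum.inl j))
    have h0 : Q (e (Sum.inl i)) (e (Sum.inl j)) = M4' i j := by
      fin_cases i <;> fin_cases j <;> rfl
    rw [h0, hij, sign_eq_neg_one_iff] at this
    exact this
  have hzero : ∀ i j : Fin 4, M4' i j = 0 → N.toBlocks₁₁ i j = 0 := by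
    intro i j hij
    have := hA (e (Sum.inl i)) (e (Sum.inl j))
    have h0 : Q (e (Sum.inl i)) (e (Sum.inl j)) = M4' i j := by
      fin_cases i <;> fin_cases j <;> rfl
    rw [h0, hij, sign_eq_zero_iff] at this
    exact this
  set F := N.toBlocks₁₁ with hF
  have hFe : F = !![F 0 0, F 0 1, -(-(F 0 2)), F 0 3; -(-(F 1 0)), -(-(F 1 1)), F 1 2, 0;
      0, 0, 0, -(-(F 2 3)); F 3 0, F 3 1, 0, 0] := by
    ext i j
    fin_cases i <;> fin_cases j
    · rfl
    · rfl
    · exact (neg_neg _).symm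
    · rfl
    · exact (neg_neg _).symm
    · exact (neg_neg _).symm
    · rfl
    · exact hzero 1 3 rfl
    · exact hzero 2 0 rfl
    · exact hzero 2 1 rfl
    · exact hzero 2 2 rfl
    · exact (neg_neg _).symm
    · rfl
    · rfl
    · exact hzero 3 2 rfl
    · exact hzero 3 3 rfl
  refine charpoly4_ne (F 0 0) (F 0 1) (-(F 0 2)) (-(F 1 0)) (-(F 1 1)) (F 1 2) (-(F 2 3)) (F 3 0)
    (F 3 1) (F 0 3) (hpos 0 0 rfl) (by linarith [hneg 0 2 rfl]) (hpos 1 2 rfl)
    (by linarith [hneg 2 3 rfl]) (hpos 3 0 rfl) (hpos 3 1 rfl) (hpos 0 3 rfl) ?_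
  rw [← hFe]
  exact h4

theorem isSuperpattern : IsSuperpattern Q P := by
  have : ∀ i j, P i j = 0 ∨ Q i j = P i j := by decide
  exact fun i j h => (this i j).resolve_left h

/-- **There is a spectrally arbitrary sign pattern with a superpattern that is not spectrally
arbitrary.**  The superpattern does not even have a nilpotent realization. -/
theorem result : ∃ (n : ℕ) (P Q : Matrix (Fin n) (Fin n) SignType),
    SpectrallyArbitrary P ∧ IsSuperpattern Q P ∧ ¬ SpectrallyArbitrary Q ∧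
      ∀ A : Matrix (Fin n) (Fin n) ℝ, Realizes A Q → ¬ IsNilpotent A := by
  refine ⟨6, P, Q, P_arbitrary, isSuperpattern, ?_, Q_not_nilpotent⟩
  intro h
  obtain ⟨A, hA, hX⟩ := h (X ^ 6) (monic_X_pow 6) (natDegree_X_pow 6)
  refine Q_not_nilpotent A hA ⟨6, ?_⟩
  have := Matrix.aeval_self_charpoly A
  rw [hX] at this
  simpa using this

end Pool.Agent.Results.MP_557f7f_co.SpectralSuperpattern
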